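import Mathlib
import Pool.Agent.X34.E.E29
import Pool.Agent.X34.E.E4

/-!
# Two of any 45 linear forms are prime in all windows around a positive proportion of the integers

Let `a_i X + b_i` be a finite family of pairwise non-proportional linear forms with an admissible subfamily `S` of 45 forms.
For all large `X` there is a set `T ⊆ S` of at least two forms with the following property: around a positive proportion
of the integers `x ≤ M X` ALL windows `(u, v]`, from the length `K (log X) ^ 45` up to the length `x / 2`, contain the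
same order `(v - u) / (log X) ^ 45` of integers `n` at which exactly the forms of `T` have prime values and no value of a
form of `S` has a prime factor `≤ X ^ k` (`k > 0` an absolute constant): at least `c (v - u) / (log X) ^ 45` such integers in
a fixed class `ν` modulo `W`, while the number of all the integers of this class in the window without such a prime factor
is at most `C (v - u) / (log X) ^ 45`.

The theorem rests on the property DHL[45, 2] with almost prime values in the right order (`dhl45R`, helper34, built on the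
starting library) and on the regular windows of the starting library (`Pool.Agent.W123.RU`).
-/

set_option autoImplicit false

open Finset Filter

namespace Pool.Agent.Results.MP_746f10_nt.AllWindows45Forms

/-- the values at `n` of the forms of `S` have no prime factor `≤ y` -/
def Rough {ι : Type} (a b : ι → ℕ) (S : Finset ι) (y : ℝ) (n : ℕ) : Prop :=
  ∀ i ∈ S, ∀ p : ℕ, p.Prime → (p : ℝ) ≤ y → ¬ p ∣ a i * n + b i

/-- exactly the forms of `T` have prime values at `n` (in the whole family), and the values of the forms of `S` have no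
prime factor `≤ y` -/
def Exact {ι : Type} (a b : ι → ℕ) (S T : Finset ι) (y : ℝ) (n : ℕ) : Prop :=
  (∀ i, (a i * n + b i).Prime ↔ i ∈ T) ∧ Rough a b S y n

/-- all windows `(u, v]` with `u ≤ x ≤ v` and `K (log X) ^ 45 ≤ v - u ≤ x / 2` contain at least
`c (v - u) / (log X) ^ 45` integers with the property `P` and at most `C (v - u) / (log X) ^ 45` integers with the
property `R` -/
def Regular (P R : ℕ → Prop) (c C K : ℝ) (X x : ℕ) : Prop :=
  ∀ u v : ℕ, u ≤ x → x ≤ v → K * Real.log X ^ 45 ≤ (v : ℝ) - u → 2 * ((v : ℝ) - u) ≤ x →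
    c * (((v : ℝ) - u) / Real.log X ^ 45) ≤ (Set.ncard {q : ℕ | u < q ∧ q ≤ v ∧ P q} : ℝ) ∧
    (Set.ncard {q : ℕ | u < q ∧ q ≤ v ∧ R q} : ℝ) ≤ C * (((v : ℝ) - u) / Real.log X ^ 45)

/-- There is `k > 0` such that for every finite family of pairwise non-proportional forms `a i * n + b i` (`a i ≥ 1`,
`b i ≥ 0`) and every subfamily `S` of 45 forms whose values at some integer are prime to `p`, for every prime `p`, there
are a class `ν` modulo `W`, `M` and `c, C, K, κ > 0` such that for all large `X` there is `T ⊆ S` with at least two elements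
for which at least `κ X` integers `x` with `X < x ≤ M X` are regular for the properties `n ≡ ν (mod W)`, `Exact` (at least)
and `ν ≤ n ≡ ν (mod W)`, `Rough` (at most), with the bound `X ^ k` for the prime factors. -/
theorem result : ∃ k : ℝ, 0 < k ∧ ∀ (ι : Type) [Fintype ι] (a b : ι → ℕ),
    (∀ i, 1 ≤ a i) → (∀ i j, i ≠ j → a i * b j ≠ a j * b i) → ∀ S : Finset ι, S.card = 45 →
    (∀ p : ℕ, p.Prime → ∃ n : ℕ, ∀ i ∈ S, ¬ p ∣ a i * n + b i) →
    ∃ (W ν M : ℕ) (c C K κ : ℝ), 0 < W ∧ 0 < c ∧ 0 < C ∧ 0 < K ∧ 0 < κ ∧ ∀ᶠ X : ℕ in atTop,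
      ∃ T ⊆ S, 2 ≤ T.card ∧
      κ * X ≤ (Set.ncard {x : ℕ | X < x ∧ x ≤ M * X ∧
        Regular (fun n => n ≡ ν [MOD W] ∧ Exact a b S T ((X : ℝ) ^ k) n)
          (fun n => ν ≤ n ∧ n ≡ ν [MOD W] ∧ Rough a b S ((X : ℝ) ^ k) n) c C K X x} : ℝ) := by
  classical
  obtain ⟨k, hk, h⟩ := Pool.Agent.X34.E.forms_win Pool.Agent.X34.E.dhl45R
  exact ⟨k, hk, fun ι _ a b ha hne S hS hloc => h ι a b ha hne S hS hloc⟩

end Pool.Agent.Results.MP_746f10_nt.AllWindows45Forms
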