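import Pool.Agent.X55.Fam.LinCor

/-!
# Systems of linear forms at integers with prescribed residues modulo a large prime, uniformly in the coefficients

Let `P` be a large prime. We consider an arbitrary admissible system of `k` linear forms `a i * n + b i`, with
coefficients up to `P ^ B`, where `B` is arbitrary, at the integers `n`
* of an ARBITRARY set `A` of residues modulo `P` whose Fourier coefficients are at most `Γ`, in ARBITRARY intervals of
  a length `H ≤ P` with `|A| H ≥ Γ P ^ (1 + ε)`;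
* of a coset of a subgroup `S` of the residues, in the intervals of a length `H ≤ P` with `|S| H ≥ P ^ (3 / 2 + ε)`;
* which are primitive roots of `P`, in the intervals of a length `H` with `P ^ (1 / 2 + ε) ≤ H ≤ P`;
* which are on the modular hyperbola `n m = a` modulo `P` with `n` and `m` in intervals of the lengths `H`, `K ≤ P` with
  `H K ≥ P ^ (3 / 2 + ε)`.
Each time the number of the `n` for which all the values have a bounded number of prime factors, all greater than
`P ^ δ`, has the expected order of magnitude `N V(P)`, where `N` is the expected number of the `n` and `V(P)` is the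
product of the local factors of the system over the primes up to `P`; the number of the `n` for which all the values are
primes is at most of this order. All the constants depend only on `k`, `ε`, `B`: everything is uniform in the system.
The number of the `n` for which no value has a prime factor up to `y` is given by an asymptotic formula, which is also
uniform in the system.

The proof combines a sieve which is uniform in the removed residue classes, incomplete sums, Weil's bound for the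
Kloosterman sums and a Moebius formula for primitive roots.
-/

set_option autoImplicit false

namespace Pool.Agent.Results.MP_746f10_nt.ResiduesModuloPrimes

open Finset

/-- The system of the forms `a i * n + b i` is admissible: no coefficient `a i` is zero, and no prime divides one of the
values for each `n`. -/
def Admissible {k : ℕ} (a b : Fin k → ℤ) : Prop :=
  (∀ i, a i ≠ 0) ∧ ∀ q : ℕ, q.Prime → ∃ n : ℕ, ∀ i, ¬ (q : ℤ) ∣ a i * n + b i

/-- `m ≠ 0` has at most `r` prime factors, counted with multiplicity, all of them greater than `x`. -/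
def AlmostPrime (r : ℕ) (x : ℝ) (m : ℕ) : Prop :=
  m ≠ 0 ∧ m.primeFactorsList.length ≤ r ∧ ∀ q : ℕ, q.Prime → q ∣ m → x < q

/-- the number of the `n` in `(M, M + H]` with the property `R` for which all the values are almost primes -/
noncomputable def almost {k : ℕ} (a b : Fin k → ℤ) (r : ℕ) (x : ℝ) (M H : ℕ) (R : ℕ → Prop) : ℕ :=
  Set.ncard {n : ℕ | M < n ∧ n ≤ M + H ∧ R n ∧ ∀ i, AlmostPrime r x (a i * n + b i).natAbs}

/-- the number of the `n` in `(M, M + H]` with the property `R` for which all the values are primes -/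
noncomputable def primes {k : ℕ} (a b : Fin k → ℤ) (M H : ℕ) (R : ℕ → Prop) : ℕ :=
  Set.ncard {n : ℕ | M < n ∧ n ≤ M + H ∧ R n ∧ ∀ i, (a i * n + b i).natAbs.Prime}

/-- the number of the `n` in `(M, M + H]` with the property `R` for which no value has a prime factor up to `y` -/
noncomputable def rough {k : ℕ} (a b : Fin k → ℤ) (y M H : ℕ) (R : ℕ → Prop) : ℕ :=
  Set.ncard {n : ℕ | M < n ∧ n ≤ M + H ∧ R n ∧ ∀ q : ℕ, q.Prime → q ≤ y → ∀ i, ¬ (q : ℤ) ∣ a i * n + b i}

/-- the product over the primes `q ≤ y` of `1 - ν(q) / q`, where `ν(q)` is the number of the residues `n` modulo `q` for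
which one of the values is divisible by `q` -/
noncomputable def V {k : ℕ} (a b : Fin k → ℤ) (y : ℕ) : ℝ :=
  ∏ q ∈ (Icc 1 y).filter Nat.Prime, (1 - (Set.ncard {n : ℕ | n < q ∧ ∃ i, (q : ℤ) ∣ a i * n + b i} : ℝ) / q)

/-- the bounds for the interval `(M, M + H]` and the property `R`, with the expected number `N` -/
def Bounds {k : ℕ} (a b : Fin k → ℤ) (P r : ℕ) (δ c C : ℝ) (B M H : ℕ) (R : ℕ → Prop) (N : ℝ) : Prop :=
  (M + H ≤ P ^ B → (∀ i, (a i).natAbs ≤ P ^ B) → (∀ i, (b i).natAbs ≤ P ^ B) →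
    c * (N * V a b P) ≤ almost a b r ((P : ℝ) ^ δ) M H R) ∧
  (primes a b M H R : ℝ) ≤ C * (N * V a b P)

theorem result : ∀ k : ℕ, 1 ≤ k →
    (∀ ε : ℝ, 0 < ε → ∀ B : ℕ, ∃ (r : ℕ) (δ c C : ℝ) (P₀ : ℕ), 0 < δ ∧ 0 < c ∧ 0 < C ∧
      ∀ P : ℕ, P₀ ≤ P → ∀ [Fact P.Prime] (a b : Fin k → ℤ), Admissible a b →
      -- sets with small Fourier coefficients
      (∀ (A : Finset (ZMod P)) (Γ : ℝ), 1 ≤ Γ →
        (∀ u : ZMod P, u ≠ 0 → ‖∑ x ∈ A, (ZMod.stdAddChar (u * x) : ℂ)‖ ≤ Γ) →
        ∀ M H : ℕ, H ≤ P → Γ * (P : ℝ) ^ (1 + ε) ≤ A.card * H →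
        Bounds a b P r δ c C B M H (fun n => (n : ZMod P) ∈ A) (A.card * H / P)) ∧
      -- cosets of subgroups
      (∀ (S : Subgroup (ZMod P)ˣ) (h : (ZMod P)ˣ) (M H : ℕ), H ≤ P → 
        (P : ℝ) ^ (3 / 2 + ε) ≤ (Nat.card S : ℝ) * H →
        Bounds a b P r δ c C B M H (fun n => ∃ g ∈ S, (n : ZMod P) = (h : ZMod P) * (g : ZMod P))
          (Nat.card S * H / P)) ∧
      -- primitive roots
      (∀ M H : ℕ, H ≤ P → (P : ℝ) ^ (1 / 2 + ε) ≤ H →
        Bounds a b P r δ c C B M H (fun n => orderOf (n : ZMod P) = P - 1) ((P - 1).totient * H / P)) ∧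
      -- modular hyperbolas
      (∀ u : ZMod P, u ≠ 0 → ∀ M H L K : ℕ, H ≤ P → K ≤ P → (P : ℝ) ^ (3 / 2 + ε) ≤ (H : ℝ) * K →
        Bounds a b P r δ c C B M H (fun n => ∃ m : ℕ, L < m ∧ m ≤ L + K ∧ (n : ZMod P) * (m : ZMod P) = u)
          (K * H / P))) ∧
    -- the asymptotic formula
    (∀ ε η : ℝ, 0 < ε → 0 < η → ∃ (δ : ℝ) (P₀ : ℕ), 0 < δ ∧
      ∀ P : ℕ, P₀ ≤ P → ∀ [Fact P.Prime] (a b : Fin k → ℤ), Admissible a b →
      ∀ (A : Finset (ZMod P)) (Γ : ℝ), 1 ≤ Γ →
      (∀ u : ZMod P, u ≠ 0 → ‖∑ x ∈ A, (ZMod.stdAddChar (u * x) : ℂ)‖ ≤ Γ) →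
      ∀ M H : ℕ, H ≤ P → Γ * (P : ℝ) ^ (1 + ε) ≤ A.card * H → ∀ y : ℕ, 3 ≤ y → (y : ℝ) ≤ (P : ℝ) ^ δ →
      |(rough a b y M H (fun n => (n : ZMod P) ∈ A) : ℝ) - A.card * H / P * V a b y| ≤
        η * (A.card * H / P * V a b y)) := by
  intro k hk
  constructor
  · intro ε hε B
    obtain ⟨r, δ, c, C, P₀, hδ, hc, hC, h⟩ := Pool.Agent.X55.Fam.res_lin k hk ε hε B
    refine ⟨r, δ, c, C, P₀, hδ, hc, hC, ?_⟩
    intro P hP _ a b hab
    obtain ⟨h1, h2, h3, h4⟩ := h P hP a b hab.1 hab.2
    exact ⟨fun A Γ hΓ hA M H hH hAH => h1 A Γ hΓ hA M H hH hAH,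
      fun S b M H hH hGH => h2 S b M H hH hGH,
      fun M H hH hPH => h3 M H hH hPH,
      fun a ha M H L K hH hK hHK => h4 a ha M H L K hH hK hHK⟩
  · intro ε η hε hη
    obtain ⟨δ, P₀, hδ, h⟩ := Pool.Agent.X55.Fam.res_linA k hk ε η hε hη
    refine ⟨δ, P₀, hδ, ?_⟩
    intro P hP _ a b hab A Γ hΓ hA M H hH hAH y hy hyP
    exact h P hP a b hab.2 A Γ hΓ hA M H hH hAH y hy hyP

end Pool.Agent.Results.MP_746f10_nt.ResiduesModuloPrimes
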