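import Mathlib
import Pool.Agent.Y879.AP.Two
import Pool.Agent.Y879.AP.Mean2
import Pool.Agent.Y879.GL.Linear
import Pool.Agent.Y879.GL.Pattern

set_option autoImplicit false

/-!
# Poisson statistics of the almost prime values of `k` linear forms, uniformly in the forms
-/

namespace Pool.Agent.Results.MP_746f10_nt.UniformGapLaws

open Finset Filter

/-- the set of linear forms `a i * x + b i` is admissible in the sense of the problem -/
def Admissible {k : ℕ} (a b : Fin k → ℕ) : Prop :=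
  (∀ i, 1 ≤ b i ∧ b i < a i) ∧ ∀ p : ℕ, p.Prime → ∃ n : ℤ, ∀ i, ¬ (p : ℤ) ∣ a i * n + b i

/-- all the values `a i * n + b i` are almost prime: all their prime factors are larger than
`X ^ (1 / r)` -/
def Good {k : ℕ} (X r : ℕ) (a b : Fin k → ℕ) (n : ℕ) : Prop :=
  ∀ i, ∀ p : ℕ, p.Prime → p ∣ a i * n + b i → (X : ℝ) ^ (1 / (r : ℝ)) < p

/-- the number of the classes `n` modulo `p` for which `p` divides some `a i * n + b i` -/
noncomputable def classes {k : ℕ} (a b : Fin k → ℕ) (p : ℕ) : ℕ :=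
  {n : ℕ | n < p ∧ ∃ i, p ∣ a i * n + b i}.ncard

/-- the expected density of the good integers: the product of `1 - classes a b p / p` over the primes
`p ≤ X ^ (1 / r)` -/
noncomputable def density {k : ℕ} (X r : ℕ) (a b : Fin k → ℕ) : ℝ :=
  ∏ p ∈ (Icc 1 ⌊(X : ℝ) ^ (1 / (r : ℝ))⌋₊).filter Nat.Prime, (1 - (classes a b p : ℝ) / p)

/-- the singular series of the forms, truncated at `X ^ (1 / r)` -/
noncomputable def series {k : ℕ} (X r : ℕ) (a b : Fin k → ℕ) : ℝ :=
  ∏ p ∈ (Icc 1 ⌊(X : ℝ) ^ (1 / (r : ℝ))⌋₊).filter Nat.Prime,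
    (1 - (classes a b p : ℝ) / p) / (1 - 1 / (p : ℝ)) ^ k

/-- the probability that a Poisson variable of mean `x` is `j` -/
noncomputable def poisson (x : ℝ) (j : ℕ) : ℝ := Real.exp (-x) * x ^ j / j.factorial

open Pool.Agent.Y879.AP Pool.Agent.W123.RP Pool.Agent.H373R2.T7 Pool.Agent.TH464.PO
open Pool.Agent.Y879.GL Pool.Agent.W123.RU Pool.Agent.W123.RU.Poly Polynomial

variable {k : ℕ} {a b : Fin k → ℕ}

/-- the linear forms as polynomials -/
noncomputable def F (a b : Fin k → ℕ) : Fin k → ℤ[X] := fun i => lf (a i) (b i)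

lemma Q_iff (p m : ℕ) : Q (F a b) p m ↔ ∃ i, p ∣ a i * m + b i := by
  unfold Q F
  refine exists_congr fun i => ?_
  rw [lf_eval]
  rw [show ((a i : ℕ) : ℤ) * (m : ℤ) + ((b i : ℕ) : ℤ) = ((a i * m + b i : ℕ) : ℤ) by push_cast; ring]
  exact Int.natCast_dvd_natCast

lemma classes_eq (p : ℕ) : classes a b p = nuB (Q (F a b)) p := by
  classical
  unfold classes nuB
  rw [← Set.ncard_coe_finset]
  congr 1
  ext n
  simp only [Set.mem_ofPred_eq, coe_filter, mem_range, Q_iff]

lemma density_eq (X r : ℕ) : density X r a b = Vq (Q (F a b)) ⌊(X : ℝ) ^ (1 / (r : ℝ))⌋₊ := by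
  unfold density Vq pz
  refine Finset.prod_congr rfl fun p _ => ?_
  rw [classes_eq]

lemma good_iff (X r m : ℕ) : Good X r a b m ↔ Sf (Q (F a b)) ⌊(X : ℝ) ^ (1 / (r : ℝ))⌋₊ m := by
  unfold Good Sf
  constructor
  · rintro h p hp hd
    obtain ⟨i, hi⟩ := (Q_iff p m).1 hd
    have h3 : (p : ℝ) ≤ (X : ℝ) ^ (1 / (r : ℝ)) := (Nat.le_floor_iff (by positivity)).1 (mem_pz.1 hp).1
    linarith [h i p (mem_pz.1 hp).2 hi]
  · intro h i p hp hd
    by_contra hlt
    exact h p (mem_pz.2 ⟨Nat.le_floor (not_lt.1 hlt), hp⟩) ((Q_iff p m).2 ⟨i, hd⟩)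

lemma adm_nat (h : Admissible a b) (p : ℕ) (hp : p.Prime) : ∃ m : ℕ, ∀ i, ¬ (p : ℤ) ∣ a i * m + b i := by
  obtain ⟨n, hn⟩ := h.2 p hp
  refine ⟨(n % p).toNat, fun i hd => hn i ?_⟩
  have hp0 : (p : ℤ) ≠ 0 := by exact_mod_cast hp.ne_zero
  rw [Int.toNat_of_nonneg (Int.emod_nonneg _ hp0)] at hd
  have h1 : (p : ℤ) ∣ (a i : ℤ) * (n - n % p) := Dvd.dvd.mul_left (Int.dvd_self_sub_emod) _
  have h2 := dvd_add hd h1
  rwa [show (a i : ℤ) * (n % p) + b i + a i * (n - n % p) = a i * n + b i by ring] at h2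

lemma cop (h : Admissible a b) (i : Fin k) : IsCoprime (a i : ℤ) (b i : ℤ) := by
  rw [Nat.isCoprime_iff_coprime]
  by_contra hne
  obtain ⟨p, hp, hpd⟩ := Nat.exists_prime_and_dvd hne
  obtain ⟨m, hm⟩ := adm_nat h p hp
  apply hm i
  have h1 : p ∣ a i := hpd.trans (Nat.gcd_dvd_left _ _)
  have h2 : p ∣ b i := hpd.trans (Nat.gcd_dvd_right _ _)
  exact_mod_cast (Nat.dvd_add (Dvd.dvd.mul_right h1 m) h2)

lemma us (h : Admissible a b) (H U : ℝ) (hH : ∀ i, (a i : ℝ) ≤ H) : US k 1 H U (F a b) := by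
  have hpos : ∀ i, 0 < a i := fun i => by
    have := h.1 i
    omega
  refine us_lf k (fun i => (a i : ℤ)) (fun i => (b i : ℤ)) H U (fun i => by
      have := hpos i
      exact_mod_cast this.ne') (cop h) (fun i => ?_) (fun i => ?_) (fun p hp => adm_nat h p hp) ?_
  · push_cast
    rw [abs_of_nonneg (Nat.cast_nonneg _)]
    exact hH i
  · push_cast
    rw [abs_of_nonneg (Nat.cast_nonneg _)]
    exact le_trans (by exact_mod_cast (h.1 i).2.le) (hH i)
  · intro i j t ht _
    constructor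
    · rintro ⟨h1, h2⟩
      have h3 := (h.1 i).2
      have h4 : (b i : ℤ) < a i := by exact_mod_cast h3
      have h5 : (a j : ℤ) ≤ a j * t := by
        have h6 : (1 : ℤ) ≤ t := by exact_mod_cast ht
        have h7 : (0 : ℤ) ≤ a j := Nat.cast_nonneg _
        nlinarith
      have h8 : (0 : ℤ) ≤ b j := Nat.cast_nonneg _
      omega
    · rintro ⟨h1, _⟩
      have h3 : (0 : ℤ) < a i := by exact_mod_cast hpos i
      have h4 : (0 : ℤ) < a j := by exact_mod_cast hpos j
      omega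

lemma root (p : ℕ) (hp : p.Prime) (c d : ℤ) (hc : ¬ (p : ℤ) ∣ c) : ∃ r < p, (p : ℤ) ∣ c * r + d := by
  have : Fact p.Prime := ⟨hp⟩
  have hc' : (c : ZMod p) ≠ 0 := by
    rwa [Ne, ZMod.intCast_zmod_eq_zero_iff_dvd]
  refine ⟨(-(d : ZMod p) * (c : ZMod p)⁻¹).val, ZMod.val_lt _, ?_⟩
  rw [← ZMod.intCast_zmod_eq_zero_iff_dvd]
  push_cast
  rw [ZMod.natCast_zmod_val]
  field_simp
  ring

/-- the primes with fewer than two classes -/
noncomputable def DD (a b : Fin k → ℕ) (i j : Fin k) : ℕ :=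
  a i * a j * ((a i : ℤ) * b j - a j * b i).natAbs

lemma two_classes (i j : Fin k) (p : ℕ) (hp : p.Prime) (hpD : ¬ p ∣ DD a b i j) :
    2 ≤ nuB (Q (F a b)) p := by
  classical
  unfold DD at hpD
  have h1 : ¬ (p : ℤ) ∣ (a i : ℤ) := fun h => hpD
    (Dvd.dvd.mul_right (Dvd.dvd.mul_right (Int.natCast_dvd_natCast.1 h) _) _)
  have h2 : ¬ (p : ℤ) ∣ (a j : ℤ) := fun h => hpD
    (Dvd.dvd.mul_right (Dvd.dvd.mul_left (Int.natCast_dvd_natCast.1 h) _) _)
  have h3 : ¬ (p : ℤ) ∣ (a i : ℤ) * b j - a j * b i := fun h => hpD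
    (Dvd.dvd.mul_left (Int.natCast_dvd.1 h) _)
  obtain ⟨r, hr, hrd⟩ := root p hp _ (b i) h1
  obtain ⟨s, hs, hsd⟩ := root p hp _ (b j) h2
  have hrs : r ≠ s := by
    rintro rfl
    apply h3
    have h4 := dvd_sub (Dvd.dvd.mul_left hsd (a i : ℤ)) (Dvd.dvd.mul_left hrd (a j : ℤ))
    rwa [show (a i : ℤ) * (a j * r + b j) - a j * (a i * r + b i) = a i * b j - a j * b i by ring] at h4
  unfold nuB
  refine Finset.one_lt_card.2 ⟨r, ?_, s, ?_, hrs⟩
  · rw [mem_filter, mem_range, Q_iff]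
    exact ⟨hr, i, by exact_mod_cast hrd⟩
  · rw [mem_filter, mem_range, Q_iff]
    exact ⟨hs, j, by exact_mod_cast hsd⟩

lemma DD_pos (h : Admissible a b) (i j : Fin k) (hij : (a i, b i) ≠ (a j, b j)) : 1 ≤ DD a b i j := by
  have hi := h.1 i
  have hj := h.1 j
  unfold DD
  apply Nat.mul_pos (Nat.mul_pos (by omega) (by omega))
  rw [Int.natAbs_pos]
  intro h0
  apply hij
  have h1 : a i * b j = a j * b i := by
    have : ((a i * b j : ℕ) : ℤ) = ((a j * b i : ℕ) : ℤ) := by
      push_cast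
      linarith
    exact_mod_cast this
  have c1 : Nat.Coprime (a i) (b i) := Nat.isCoprime_iff_coprime.1 (cop h i)
  have c2 : Nat.Coprime (a j) (b j) := Nat.isCoprime_iff_coprime.1 (cop h j)
  have d1 : a i ∣ a j := c1.dvd_of_dvd_mul_right (Dvd.intro _ h1)
  have d2 : a j ∣ a i := c2.dvd_of_dvd_mul_right (Dvd.intro _ h1.symm)
  have e1 : a i = a j := Nat.dvd_antisymm d1 d2
  have e2 : b i = b j := by
    rw [e1] at h1
    exact (Nat.eq_of_mul_eq_mul_left (by omega) h1).symm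
  rw [e1, e2]

lemma DD_le (h : Admissible a b) (i j : Fin k) (H : ℝ) (hH : ∀ i, (a i : ℝ) ≤ H) :
    (DD a b i j : ℝ) ≤ H ^ 4 := by
  have hi := h.1 i
  have hj := h.1 j
  have h1 : ((a i : ℤ) * b j - a j * b i).natAbs ≤ a i * a j := by
    have h2 : ((((a i : ℤ) * b j - a j * b i).natAbs : ℕ) : ℤ) ≤ ((a i * a j : ℕ) : ℤ) := by
      rw [Int.natCast_natAbs, abs_le]
      push_cast
      have b1 : (0 : ℤ) ≤ b i := Nat.cast_nonneg _
      have b2 : (0 : ℤ) ≤ b j := Nat.cast_nonneg _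
      have b3 : (b i : ℤ) ≤ a i := by exact_mod_cast hi.2.le
      have b4 : (b j : ℤ) ≤ a j := by exact_mod_cast hj.2.le
      have b5 : (0 : ℤ) ≤ a i := Nat.cast_nonneg _
      have b6 : (0 : ℤ) ≤ a j := Nat.cast_nonneg _
      constructor <;> nlinarith
    exact_mod_cast h2
  have h3 : DD a b i j ≤ a i * a j * (a i * a j) := Nat.mul_le_mul_left _ h1
  have h4 : (DD a b i j : ℝ) ≤ ((a i * a j * (a i * a j) : ℕ) : ℝ) := by exact_mod_cast h3
  refine h4.trans ?_
  push_cast
  have a0 : (0 : ℝ) ≤ a i := Nat.cast_nonneg _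
  have a1 : (0 : ℝ) ≤ a j := Nat.cast_nonneg _
  have hH0 : 0 ≤ H := a0.trans (hH i)
  calc (a i : ℝ) * a j * (a i * a j) ≤ H * H * (H * H) := by
        have := hH i
        have := hH j
        gcongr
    _ = H ^ 4 := by ring

lemma series_eq (X r : ℕ) : series X r a b = SS (Q (F a b)) k ⌊(X : ℝ) ^ (1 / (r : ℝ))⌋₊ := by
  unfold series SS pz
  refine Finset.prod_congr rfl fun p _ => ?_
  rw [classes_eq]

lemma Vq_one (Q : ℕ → ℕ → Prop) (y : ℕ) : Vq (Qn Q 1) y = Vq Q y := by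
  unfold Vq
  refine Finset.prod_congr rfl fun p hp => ?_
  have hpp := (mem_pz.1 hp).2
  rw [nuB_Qn_not Q 1 p (fun h => hpp.one_lt.ne' (Nat.dvd_one.1 h))]

lemma RD_one (Q : ℕ → ℕ → Prop) : RD Q 1 = 1 := by
  unfold RD
  simp

lemma Red_one (Q : ℕ → ℕ → Prop) (n : ℕ) : Red Q 1 n :=
  fun _ hp h => absurd (Nat.dvd_one.1 h) hp.one_lt.ne'

open Classical in
lemma ws_one (X r T n : ℕ) : Ws (Q (F a b)) 1 ⌊(X : ℝ) ^ (1 / (r : ℝ))⌋₊ T n =
    ((Icc 1 T).filter (fun h => Good X r a b (n + h))).card := by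
  unfold Ws
  apply card_iff
  intro h _
  rw [one_mul, good_iff]

open Classical in
/-- **The Poisson law and the gap laws for the almost prime values of `k` linear forms, uniformly in the
forms.** Let `k ≥ 2`, `E, θ, ε > 0`, `x₀` and `l₀` be given. There is `r₀` such that for all `r ≥ r₀` and
all large `X` the following holds for all admissible sets of `k` forms `a i * x + b i` with `a i ≤ X ^ E`
and all intervals `(Z, Z + Y]` with `Y ≥ X ^ θ`; `n` is good if all prime factors of all the values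
`a i * n + b i` are larger than `X ^ (1 / r)`, and `V = density X r a b`.

(1) The interval contains `Y V` good `n`, up to the factor `1 ± ε`.

(2) For `T V ≤ x₀` the number of the good integers in `(n, n + T]`, for `n` in the interval, has the
Poisson distribution of mean `T V` up to `ε`.

(3) The proportion of the good `n` in the interval, for which there are fewer than `l` good integers in
`[n - T, n)`, is the probability that a Poisson variable of mean `T V` is less than `l` up to `ε`, for all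
`T` if `l ≤ l₀`, and for all `l` if `T V ≤ x₀`.

The second part: `V` is `(r exp (-γ) / log X) ^ k` times the truncated singular series, asymptotically,
uniformly. The third part: the values `≤ X ^ B` at the good `n` have at most `r B` prime factors. -/
theorem result (k : ℕ) (hk : 2 ≤ k) (E θ x₀ ε : ℝ) (l₀ : ℕ) (hE : 0 < E) (hθ : 0 < θ) (hε : 0 < ε) :
    (∃ r₀ : ℕ, 2 ≤ r₀ ∧ ∀ r : ℕ, r₀ ≤ r → ∀ᶠ X : ℕ in atTop, ∀ a b : Fin k → ℕ, Admissible a b →
      Function.Injective (fun i => (a i, b i)) → (∀ i, (a i : ℝ) ≤ (X : ℝ) ^ E) →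
      ∀ Z Y : ℕ, (X : ℝ) ^ θ ≤ Y →
      |(((Ioc Z (Z + Y)).filter (fun n => Good X r a b n)).card : ℝ) - Y * density X r a b| ≤
        ε * (Y * density X r a b) ∧
      (∀ T : ℕ, T * density X r a b ≤ x₀ → ∀ S : Finset ℕ,
        |(((Ioc Z (Z + Y)).filter
            (fun n => ((Icc 1 T).filter (fun h => Good X r a b (n + h))).card ∈ S)).card : ℝ) -
          Y * ∑ j ∈ S, poisson (T * density X r a b) j| ≤ ε * Y) ∧
      (∀ l T : ℕ, (l ≤ l₀ ∨ T * density X r a b ≤ x₀) →
        |(((Ioc Z (Z + Y)).filter (fun n => Good X r a b n ∧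
            ((Ico (n - T) n).filter (fun m => Good X r a b m)).card < l)).card : ℝ) -
          Y * density X r a b * ∑ j ∈ range l, poisson (T * density X r a b) j| ≤
          ε * (Y * density X r a b))) ∧
    (∀ r : ℕ, 2 ≤ r → ∀ᶠ X : ℕ in atTop, ∀ a b : Fin k → ℕ, Admissible a b →
      Function.Injective (fun i => (a i, b i)) → (∀ i, (a i : ℝ) ≤ (X : ℝ) ^ E) →
      |density X r a b * Real.log X ^ k -
        (r * Real.exp (-Real.eulerMascheroniConstant)) ^ k * series X r a b| ≤ ε * series X r a b) ∧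
    (∀ X r B : ℕ, 2 ≤ X → 1 ≤ r → ∀ a b : Fin k → ℕ, ∀ n : ℕ, Good X r a b n → ∀ i,
      1 ≤ a i * n + b i → a i * n + b i ≤ X ^ B →
      (a i * n + b i).primeFactorsList.length ≤ r * B) := by
  refine ⟨?_, ?_, ?_⟩
  · obtain ⟨r1, h1⟩ := gap_polys k 1 E 1 θ hE one_pos hθ (max l₀ 1) x₀ ε hε
    obtain ⟨A1, hA1, hRR⟩ := RR_ev k 1 E 1 hE one_pos
    obtain ⟨A, hA⟩ : ∃ A, A = A1 + 4 * E := ⟨_, rfl⟩
    have hA0 : 0 < A := by rw [hA]; positivity
    obtain ⟨r2, hr2, h2⟩ := two_law (k * 1 + 1) (by omega) A 1 θ x₀ ε hA0 one_pos hθ hε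
    refine ⟨max r1 r2, hr2.trans (le_max_right _ _), ?_⟩
    intro r hr
    have hrr : 2 ≤ r := hr2.trans ((le_max_right _ _).trans hr)
    obtain ⟨M, hM, hV2⟩ := V2_up (4 * E) (by positivity) r hrr
    filter_upwards [h1 r ((le_max_left _ _).trans hr) M, h2 r ((le_max_right _ _).trans hr), hV2, hRR,
      eventually_ge_atTop 1] with X g1 g2 g3 g4 g5
    intro a b hab hinj hax Z Y hY
    have hX1 : (1 : ℝ) ≤ X := by exact_mod_cast g5
    have hX0 : (0 : ℝ) < X := by linarith
    have hus : US k 1 ((X : ℝ) ^ E) ((X : ℝ) ^ (1 : ℝ)) (F a b) := us hab _ _ hax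
    obtain ⟨i, j, hij⟩ : ∃ i j : Fin k, (a i, b i) ≠ (a j, b j) := by
      refine ⟨⟨0, by omega⟩, ⟨1, by omega⟩, fun h => ?_⟩
      have h3 := hinj h
      simp at h3
    have hDle : (DD a b i j : ℝ) ≤ (X : ℝ) ^ (4 * E) := by
      refine (DD_le hab i j _ hax).trans (le_of_eq ?_)
      rw [← Real.rpow_natCast, ← Real.rpow_mul hX0.le]
      congr 1
      push_cast
      ring
    have hVup : Vq (Q (F a b)) ⌊(X : ℝ) ^ (1 / (r : ℝ))⌋₊ ≤ M / Real.log X :=
      g3 _ (DD a b i j) (us_adm hus) (DD_pos hab i j hij) hDle (fun p hp hpD => two_classes i j p hp hpD)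
    have hgap := g1 (F a b) hus hVup Z Y hY
    have hlaw := g2 (Q (F a b)) 1 (DD a b i j) (us_perB hus) (us_adm hus) (DD_pos hab i j hij)
      (hDle.trans (Real.rpow_le_rpow_of_exponent_le hX1 (by rw [hA]; linarith))) le_rfl
      (by push_cast; exact Real.one_le_rpow hX1 hA0.le)
      (fun p hp hpD => ⟨fun h => hp.one_lt.ne' (Nat.dvd_one.1 h), two_classes i j p hp hpD⟩)
      (fun t ht htU => ⟨RR (F a b) t, RR_pos hus t ht htU,
        (g4 (F a b) _ hus t ht htU).trans (Real.rpow_le_rpow_of_exponent_le hX1 (by rw [hA]; linarith)),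
        fun p _ _ hc => RR_dvd hus t p (by rwa [one_mul] at hc)⟩) Z Y hY
    have hgap' : ∀ l T : ℕ, (l ≤ max l₀ 1 ∨ T * density X r a b ≤ x₀) →
        |(((Ioc Z (Z + Y)).filter (fun n => Good X r a b n ∧
            ((Ico (n - T) n).filter (fun m => Good X r a b m)).card < l)).card : ℝ) -
          Y * density X r a b * ∑ j ∈ range l, poisson (T * density X r a b) j| ≤
          ε * (Y * density X r a b) := by
      intro l T hl
      rw [density_eq] at hl ⊢
      have h3 := hgap l T hl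
      have h4 : Pk (Sf (Q (F a b)) ⌊(X : ℝ) ^ (1 / (r : ℝ))⌋₊) l T Z Y =
          ((Ioc Z (Z + Y)).filter (fun n => Good X r a b n ∧
            ((Ico (n - T) n).filter (fun m => Good X r a b m)).card < l)).card := by
        unfold Pk
        apply card_iff
        intro n _
        rw [good_iff]
        have h5 : ((Ico (n - T) n).filter (Sf (Q (F a b)) ⌊(X : ℝ) ^ (1 / (r : ℝ))⌋₊)).card =
            ((Ico (n - T) n).filter (fun m => Good X r a b m)).card := by
          apply card_iff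
          intro m _
          rw [good_iff]
        rw [h5]
      rw [h4] at h3
      exact h3
    refine ⟨?_, ?_, fun l T hl => hgap' l T (hl.imp_left fun h => h.trans (le_max_left _ _))⟩
    · have h3 := hgap' 1 0 (Or.inl (le_max_right _ _))
      have h4 : ((Ioc Z (Z + Y)).filter (fun n => Good X r a b n ∧
            ((Ico (n - 0) n).filter (fun m => Good X r a b m)).card < 1)).card =
          ((Ioc Z (Z + Y)).filter (fun n => Good X r a b n)).card := by
        apply card_iff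
        intro n _
        simp
      rw [h4] at h3
      simpa [poisson] using h3
    · intro T hT S
      rw [density_eq] at hT ⊢
      have h3 := hlaw T (by rw [Vq_one]; exact hT) S
      rw [Vq_one, RD_one, mul_one] at h3
      have h4 : ((Ioc Z (Z + Y)).filter (fun n => Red (Q (F a b)) 1 n ∧
          Ws (Q (F a b)) 1 ⌊(X : ℝ) ^ (1 / (r : ℝ))⌋₊ T n ∈ S)).card =
          ((Ioc Z (Z + Y)).filter
            (fun n => ((Icc 1 T).filter (fun h => Good X r a b (n + h))).card ∈ S)).card := by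
        apply card_iff
        intro n _
        rw [ws_one]
        exact ⟨fun h => h.2, fun h => ⟨Red_one _ n, h⟩⟩
      rw [h4] at h3
      exact h3
  · intro r hr
    filter_upwards [mean_gen (k * 1 + 1) k 1 one_pos r hr ε hε, eventually_ge_atTop 1] with X hX g5
    intro a b hab hinj hax
    have hX1 : (1 : ℝ) ≤ X := by exact_mod_cast g5
    have hus : US k 1 ((X : ℝ) ^ E) 1 (F a b) := us hab _ _ hax
    have h := hX (Q (F a b)) 1 (us_perB hus) (us_adm hus) le_rfl
      (by push_cast; exact Real.one_le_rpow hX1 zero_le_one)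
    rw [Vq_one, RD_one, mul_one] at h
    rw [density_eq, series_eq]
    exact h
  · intro X r B hX hr a b n hg i h1 h2
    have hq1 : (1 : ℝ) < X := by exact_mod_cast (by omega : 1 < X)
    have hr0 : (0 : ℝ) < r := by exact_mod_cast (by omega : 0 < r)
    refine Pool.Agent.Y879.GL.few_of_rough ((X : ℝ) ^ (1 / (r : ℝ)))
      (Real.one_lt_rpow hq1 (by positivity)) _ (r * B) (by omega) ?_ (fun p hp hd => hg i p hp hd)
    have h3 : ((X : ℝ) ^ (1 / (r : ℝ))) ^ (r * B) = (X : ℝ) ^ B := by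
      rw [pow_mul, ← Real.rpow_natCast ((X : ℝ) ^ (1 / (r : ℝ))) r, ← Real.rpow_mul (by linarith)]
      rw [one_div, inv_mul_cancel₀ hr0.ne', Real.rpow_one]
    rw [h3]
    exact_mod_cast h2

end Pool.Agent.Results.MP_746f10_nt.UniformGapLaws
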