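import Pool.Agent.X220.ZK.Equi

/-!
# The uniform prime `k`-tuplets conjecture: almost primes and Zeckendorf expansions

Every `n` is in exactly one way a sum of distinct Fibonacci numbers `fib j` (`j ≥ 2`) no two of which are consecutive. Let
`G` be a finite abelian group, `g : ℕ → G`, and let `zs g n` be the sum of the `g j` over the `j` in the expansion of `n`.
We assume that for some `L` no nontrivial character `χ` of `G` satisfies `χ (g (j + 2)) = χ (g (j + 1)) χ (g j)` for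
`L + 1` consecutive `j` (otherwise the values of `zs g` may depend on residue classes). For example `zs g n` may be the number
of the summands modulo `m`. Let `a_i n + b_i` (`i ≤ k`) be linear forms which have no common fixed prime divisor.

The integers `n` of an ARBITRARY short interval `(M, M + H]` with `zs g n = g₀` for which all the values `a_i n + b_i` are
almost primes are counted up to constants, those for which all the values are primes are bounded from above, and those for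
which the values have no prime factor up to `y ≤ H ^ δ` are counted asymptotically, all uniformly in the forms, in `M` and
in `g₀`. In particular, for every `ε > 0` there are `γ` and `r`, which depend only on `k`, `ε`, `G`, `g`, such that for every
admissible set and every `g₀` there is `n ≤ γ (a_1 ⋯ a_k) ^ ε` with `zs g n = g₀` for which all the `a_i n + b_i` are products
of at most `r` primes.
-/

set_option autoImplicit false

namespace Pool.Agent.Results.MP_746f10_nt.ZeckendorfDigits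

open Finset

/-- the Zeckendorf-additive function of a sequence -/
def zs {G : Type} [AddCommGroup G] (g : ℕ → G) (n : ℕ) : G := ((Nat.zeckendorf n).map g).sum

/-- for some `L`, no nontrivial character is multiplicative along `L + 1` consecutive steps of the Fibonacci recurrence -/
def Spread {G : Type} [AddCommGroup G] (g : ℕ → G) : Prop :=
  ∃ L : ℕ, ∀ χ : AddChar G ℂ, χ ≠ 0 → ∀ k₀ : ℕ, ∃ k, k₀ ≤ k ∧ k ≤ k₀ + L ∧ χ (g (k + 2)) ≠ χ (g (k + 1)) * χ (g k)

/-- `m ≠ 0` has at most `r` prime factors, counted with multiplicity, all of them greater than `x`. -/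
def AlmostPrime (r : ℕ) (x : ℝ) (m : ℕ) : Prop :=
  m ≠ 0 ∧ m.primeFactorsList.length ≤ r ∧ ∀ q : ℕ, q.Prime → q ∣ m → x < q

/-- the number of the `n` in `(M, M + H]` with the property `R` for which all the `a_i n + b_i` are almost primes -/
noncomputable def almost {k : ℕ} (a b : Fin k → ℤ) (r : ℕ) (x : ℝ) (M H : ℕ) (R : ℕ → Prop) : ℕ :=
  Set.ncard {n : ℕ | M < n ∧ n ≤ M + H ∧ R n ∧ ∀ i, AlmostPrime r x (a i * n + b i).natAbs}

/-- the number of the `n` in `(M, M + H]` with the property `R` for which all the `a_i n + b_i` are primes -/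
noncomputable def primes {k : ℕ} (a b : Fin k → ℤ) (M H : ℕ) (R : ℕ → Prop) : ℕ :=
  Set.ncard {n : ℕ | M < n ∧ n ≤ M + H ∧ R n ∧ ∀ i, (a i * n + b i).natAbs.Prime}

/-- the number of the `n` in `(M, M + H]` with the property `R` for which no `a_i n + b_i` has a prime factor up to `y` -/
noncomputable def rough {k : ℕ} (a b : Fin k → ℤ) (y M H : ℕ) (R : ℕ → Prop) : ℕ :=
  Set.ncard {n : ℕ | M < n ∧ n ≤ M + H ∧ R n ∧ ∀ q : ℕ, q.Prime → q ≤ y → ∀ i, ¬ (q : ℤ) ∣ a i * n + b i}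

/-- the product over the primes `q ≤ y` of `1 - ν(q) / q`, where `ν(q)` is the number of the residues `n` modulo `q` for
which one of the values is divisible by `q` -/
noncomputable def V {k : ℕ} (a b : Fin k → ℤ) (y : ℕ) : ℝ :=
  ∏ q ∈ (Icc 1 y).filter Nat.Prime, (1 - (Set.ncard {n : ℕ | n < q ∧ ∃ i, (q : ℤ) ∣ a i * n + b i} : ℝ) / q)

/-- no prime divides one of the values for every `n` -/
def NoFixed {k : ℕ} (a b : Fin k → ℤ) : Prop := ∀ q : ℕ, q.Prime → ∃ n : ℕ, ∀ i, ¬ (q : ℤ) ∣ a i * n + b i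

theorem result :
    (∀ (G : Type) [AddCommGroup G] [Fintype G] [DecidableEq G] (g : ℕ → G), Spread g → ∀ k : ℕ, 1 ≤ k →
      (∀ B : ℕ, ∃ (r : ℕ) (δ c c' C : ℝ) (H₀ : ℕ), 0 < δ ∧ 0 < c ∧ 0 < c' ∧ 0 < C ∧ ∀ H : ℕ, H₀ ≤ H →
        ∀ a b : Fin k → ℤ, (∀ i, a i ≠ 0) → NoFixed a b → ∀ (M : ℕ) (g₀ : G),
        (M + H ≤ H ^ B → (∀ i, (a i).natAbs ≤ H ^ B) → (∀ i, (b i).natAbs ≤ H ^ B) →
          c * (H / Fintype.card G * V a b H) ≤ almost a b r ((H : ℝ) ^ δ) M H (fun n => zs g n = g₀) ∧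
          c' * H / Real.log H ^ k ≤ almost a b r ((H : ℝ) ^ δ) M H (fun n => zs g n = g₀)) ∧
        (primes a b M H (fun n => zs g n = g₀) : ℝ) ≤ C * (H / Fintype.card G * V a b H)) ∧
      (∀ η : ℝ, 0 < η → ∃ (δ : ℝ) (H₀ : ℕ), 0 < δ ∧ ∀ H : ℕ, H₀ ≤ H →
        ∀ a b : Fin k → ℤ, NoFixed a b → ∀ (M : ℕ) (g₀ : G) (y : ℕ), 3 ≤ y → (y : ℝ) ≤ (H : ℝ) ^ δ →
        |(rough a b y M H (fun n => zs g n = g₀) : ℝ) - H / Fintype.card G * V a b y| ≤
          η * (H / Fintype.card G * V a b y)) ∧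
      (∀ ε : ℝ, 0 < ε → ∃ (r : ℕ) (γ : ℝ), ∀ a b : Fin k → ℕ, (∀ i, 1 ≤ b i ∧ b i < a i) →
        NoFixed (fun i => (a i : ℤ)) (fun i => (b i : ℤ)) → ∀ g₀ : G, ∃ n : ℕ, (n : ℝ) ≤ γ * ((∏ i, a i : ℕ) : ℝ) ^ ε ∧
        zs g n = g₀ ∧ ∀ i, (a i * n + b i).primeFactorsList.length ≤ r)) ∧
    (∀ (m : ℕ) [NeZero m], Spread (fun _ : ℕ => (1 : ZMod m))) := by
  classical
  refine ⟨fun G _ _ _ g hg k hk => ?_, fun m _ => Pool.Agent.X220.ZK.spread_const m⟩
  have hg' : Pool.Agent.X220.ZK.Spread g := hg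
  have main : ∀ B : ℕ, ∃ (r : ℕ) (δ c c' C : ℝ) (H₀ : ℕ), 0 < δ ∧ 0 < c ∧ 0 < c' ∧ 0 < C ∧ ∀ H : ℕ, H₀ ≤ H →
        ∀ a b : Fin k → ℤ, (∀ i, a i ≠ 0) → NoFixed a b → ∀ (M : ℕ) (g₀ : G),
        (M + H ≤ H ^ B → (∀ i, (a i).natAbs ≤ H ^ B) → (∀ i, (b i).natAbs ≤ H ^ B) →
          c * (H / Fintype.card G * V a b H) ≤ almost a b r ((H : ℝ) ^ δ) M H (fun n => zs g n = g₀) ∧
          c' * H / Real.log H ^ k ≤ almost a b r ((H : ℝ) ^ δ) M H (fun n => zs g n = g₀)) ∧
        (primes a b M H (fun n => zs g n = g₀) : ℝ) ≤ C * (H / Fintype.card G * V a b H) := by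
    intro B
    obtain ⟨r, δ, c, C, H₀, hδ, hc, hC, h⟩ := Pool.Agent.X220.ZK.zk_lin g hg' k hk B
    obtain ⟨c1, hc1, hlo⟩ := Pool.Agent.X55.Fam.VQ_low k hk
    have hG : (0 : ℝ) < Fintype.card G := by exact_mod_cast Fintype.card_pos
    refine ⟨r, δ, c, c * c1 / Fintype.card G, C, max H₀ 3, hδ, hc, by positivity, hC, ?_⟩
    intro H hH a b ha had M g₀
    have h3 : 3 ≤ H := (le_max_right _ _).trans hH
    obtain ⟨h1, h2⟩ := h H ((le_max_left _ _).trans hH) a b ha had M g₀
    refine ⟨fun hMH hA hB => ?_, h2⟩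
    have k1 := h1 hMH hA hB
    refine ⟨k1, le_trans ?_ k1⟩
    have k2 : c1 / Real.log H ^ k ≤ Pool.Agent.X55.Fam.VL a b H := by
      rw [Pool.Agent.X55.Fam.VL_eq]
      exact hlo _ (Pool.Agent.X55.Fam.adm_lin a b had) H h3
    calc c * c1 / Fintype.card G * H / Real.log H ^ k = c * (H / Fintype.card G * (c1 / Real.log H ^ k)) := by
          field_simp
      _ ≤ _ := by gcongr
  refine ⟨main, ?_, ?_⟩
  · intro η hη
    obtain ⟨δ, H₀, hδ, h⟩ := Pool.Agent.X220.ZK.zk_linA g hg' k hk η hη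
    exact ⟨δ, H₀, hδ, fun H hH a b had M g₀ y hy hyH => h H hH a b had M g₀ y hy hyH⟩
  · intro ε hε
    -- `B` with `B ≥ 1 / ε` and `B ≥ 2`
    obtain ⟨B, hB⟩ := exists_nat_ge (1 / ε + 2)
    obtain ⟨r, δ, c, c', C, H₀, hδ, hc, hc', hC, h⟩ := main B
    set H₁ : ℕ := max H₀ 3 with hH₁
    refine ⟨r, 2 * (H₁ + 1), fun a b hab had g₀ => ?_⟩
    set Q : ℝ := ((∏ i, a i : ℕ) : ℝ) with hQ
    have hQ1 : (1 : ℝ) ≤ Q := by
      have : 1 ≤ ∏ i, a i := Nat.one_le_iff_ne_zero.2 (prod_ne_zero_iff.2 fun i _ => by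
        have := hab i
        omega)
      rw [hQ]
      exact_mod_cast this
    have hQε : (1 : ℝ) ≤ Q ^ ε := Real.one_le_rpow hQ1 hε.le
    set H : ℕ := max H₁ (⌈Q ^ ε⌉₊) with hH
    have hHH0 : H₀ ≤ H := (le_max_left _ _).trans (le_max_left _ _)
    have hH3 : 3 ≤ H := (le_max_right H₀ 3).trans (le_max_left _ _)
    have hHr : (3 : ℝ) ≤ H := by exact_mod_cast hH3
    have hQH : Q ^ ε ≤ H := (Nat.le_ceil _).trans (by exact_mod_cast le_max_right _ _)
    have hQB : Q ≤ (H : ℝ) ^ B := by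
      have h1 : Q ≤ (H : ℝ) ^ (1 / ε) := by
        calc Q = (Q ^ ε) ^ (1 / ε) := by
              rw [← Real.rpow_mul (by linarith), mul_one_div_cancel hε.ne', Real.rpow_one]
          _ ≤ _ := Real.rpow_le_rpow (by linarith) hQH (by positivity)
      refine h1.trans ?_
      rw [← Real.rpow_natCast]
      exact Real.rpow_le_rpow_of_exponent_le (by linarith) (by linarith)
    have haB : ∀ i, a i ≤ H ^ B := by
      intro i
      have h1 : a i ≤ ∏ i, a i := by
        apply Nat.le_of_dvd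
        · exact Nat.pos_of_ne_zero (prod_ne_zero_iff.2 fun j _ => by
            have := hab j
            omega)
        · exact dvd_prod_of_mem a (mem_univ i)
      have h2 : ((∏ i, a i : ℕ) : ℝ) ≤ ((H ^ B : ℕ) : ℝ) := by push_cast; rw [hQ] at hQB; push_cast at hQB; exact hQB
      exact h1.trans (by exact_mod_cast h2)
    have hB2 : 2 ≤ B := by
      have h1 : (2 : ℝ) ≤ B := by
        have : 0 < 1 / ε := by positivity
        linarith
      exact_mod_cast h1
    obtain ⟨h1, -⟩ := h H hHH0 (fun i => (a i : ℤ)) (fun i => (b i : ℤ)) (fun i => by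
      have := hab i
      simp only [ne_eq, Nat.cast_eq_zero]
      omega) had 0 g₀
    obtain ⟨-, h2⟩ := h1 (by
      rw [zero_add]
      exact Nat.le_self_pow (by omega) H) (fun i => by
      rw [Int.natAbs_natCast]
      exact haB i) (fun i => by
      rw [Int.natAbs_natCast]
      exact (hab i).2.le.trans (haB i))
    have hlog : 0 < Real.log H := Real.log_pos (by linarith)
    have h3 : 0 < almost (fun i => (a i : ℤ)) (fun i => (b i : ℤ)) r ((H : ℝ) ^ δ) 0 H (fun n => zs g n = g₀) := by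
      have : (0 : ℝ) < almost (fun i => (a i : ℤ)) (fun i => (b i : ℤ)) r ((H : ℝ) ^ δ) 0 H (fun n => zs g n = g₀) :=
        lt_of_lt_of_le (by positivity) h2
      exact_mod_cast this
    unfold almost at h3
    obtain ⟨n, hn1, hn2, hn3, hn4⟩ := Set.nonempty_of_ncard_ne_zero h3.ne'
    refine ⟨n, ?_, hn3, fun i => ?_⟩
    · have h4 : (n : ℝ) ≤ H := by exact_mod_cast (by omega : n ≤ H)
      refine h4.trans ?_
      rw [hH]
      push_cast
      apply max_le
      · have : (0 : ℝ) ≤ H₁ := Nat.cast_nonneg _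
        have h5 : (H₁ : ℝ) ≤ 2 * (H₁ + 1) * 1 := by linarith
        exact h5.trans (by gcongr)
      · have h5 : (⌈Q ^ ε⌉₊ : ℝ) ≤ Q ^ ε + 1 := (Nat.ceil_lt_add_one (by linarith)).le
        have h6 : (1 : ℝ) ≤ H₁ + 1 := by
          have : (0 : ℝ) ≤ H₁ := Nat.cast_nonneg _
          linarith
        have h7 : Q ^ ε + 1 ≤ 2 * 1 * Q ^ ε := by linarith
        exact h5.trans (h7.trans (by gcongr))
    · have h4 := (hn4 i).2.1
      have h5 : ((a i : ℤ) * (n : ℤ) + (b i : ℤ)).natAbs = a i * n + b i := by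
        have : ((a i : ℤ) * (n : ℤ) + (b i : ℤ)) = ((a i * n + b i : ℕ) : ℤ) := by push_cast; ring
        rw [this, Int.natAbs_natCast]
      rwa [h5] at h4

end Pool.Agent.Results.MP_746f10_nt.ZeckendorfDigits
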